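import Mathlib
import Pool.Agent.Hhelper34.Cop.Three

/-!
# The part of a number outside a set of primes, and the divisors of `a ^ m * b` for `b ∣ m`
-/

namespace Pool.Agent.Hhelper34.CopT

open Pool.Agent.Hhelper34.Cop

open Classical in
/-- the part of `n` outside `T` -/
noncomputable def pt (T : Set ℕ) (n : ℕ) : ℕ := (n.factorization.filter (· ∉ T)).prod (· ^ ·)

open Classical in
theorem pt_f (T : Set ℕ) (n : ℕ) : (pt T n).factorization = n.factorization.filter (· ∉ T) := by
  unfold pt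
  apply Nat.prod_pow_factorization_eq_self
  intro p hp
  rw [Finsupp.support_filter, Finset.mem_filter] at hp
  exact Nat.prime_of_mem_primeFactors (by rw [← Nat.support_factorization]; exact hp.1)

theorem pt_in {T : Set ℕ} {q : ℕ} (n : ℕ) (h : q ∈ T) : (pt T n).factorization q = 0 := by
  classical
  rw [pt_f]
  exact Finsupp.filter_apply_neg _ _ (not_not.mpr h)

theorem pt_out {T : Set ℕ} {q : ℕ} (n : ℕ) (h : q ∉ T) : (pt T n).factorization q = n.factorization q := by
  classical
  rw [pt_f]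
  exact Finsupp.filter_apply_pos _ _ h

theorem pt_ne (T : Set ℕ) (n : ℕ) : pt T n ≠ 0 := by
  classical
  unfold pt Finsupp.prod
  rw [Finset.prod_ne_zero_iff]
  intro p hp
  rw [Finsupp.support_filter, Finset.mem_filter] at hp
  have : p.Prime := Nat.prime_of_mem_primeFactors (by rw [← Nat.support_factorization]; exact hp.1)
  exact pow_ne_zero _ this.ne_zero

theorem pt_mul (T : Set ℕ) {m n : ℕ} (hm : m ≠ 0) (hn : n ≠ 0) : pt T (m * n) = pt T m * pt T n := by
  apply Nat.eq_of_factorization_eq (pt_ne _ _) (Nat.mul_ne_zero (pt_ne _ _) (pt_ne _ _))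
  intro q
  rw [Nat.factorization_mul (pt_ne _ _) (pt_ne _ _), Finsupp.add_apply]
  by_cases hq : q ∈ T
  · rw [pt_in _ hq, pt_in _ hq, pt_in _ hq]
  · rw [pt_out _ hq, pt_out _ hq, pt_out _ hq, Nat.factorization_mul hm hn, Finsupp.add_apply]

theorem pt_pow (T : Set ℕ) {n : ℕ} (hn : n ≠ 0) (k : ℕ) : pt T (n ^ k) = (pt T n) ^ k := by
  apply Nat.eq_of_factorization_eq (pt_ne _ _) (pow_ne_zero _ (pt_ne _ _))
  intro q
  rw [Nat.factorization_pow, Finsupp.smul_apply]
  by_cases hq : q ∈ T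
  · rw [pt_in _ hq, pt_in _ hq, smul_zero]
  · rw [pt_out _ hq, pt_out _ hq, Nat.factorization_pow, Finsupp.smul_apply]

theorem pt_dvd (T : Set ℕ) {n : ℕ} (hn : n ≠ 0) : pt T n ∣ n := by
  rw [← Nat.factorization_le_iff_dvd (pt_ne _ _) hn]
  intro q
  by_cases hq : q ∈ T
  · rw [pt_in _ hq]
    exact Nat.zero_le _
  · rw [pt_out _ hq]

/-- no prime in `T` divides `pt T n` -/
theorem pt_prime {T : Set ℕ} {n q : ℕ} (hq : q.Prime) (h : q ∣ pt T n) : q ∉ T := by
  intro hT
  have h1 := hq.factorization_pos_of_dvd (pt_ne T n) h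
  rw [pt_in _ hT] at h1
  omega

/-- the other primes do not divide `n / pt T n` -/
theorem pt_co (T : Set ℕ) {n : ℕ} (hn : n ≠ 0) : ∃ z, n = pt T n * z ∧ z ≠ 0 ∧ ∀ q, q.Prime → q ∣ z → q ∈ T := by
  obtain ⟨z, hz⟩ := pt_dvd T hn
  have hz0 : z ≠ 0 := fun h => hn (by rw [hz, h, mul_zero])
  refine ⟨z, hz, hz0, fun q hq hqz => ?_⟩
  by_contra hT
  have h1 := hq.factorization_pos_of_dvd hz0 hqz
  have h2 : n.factorization q = (pt T n).factorization q + z.factorization q := by
    conv_lhs => rw [hz]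
    rw [Nat.factorization_mul (pt_ne _ _) hz0, Finsupp.add_apply]
  rw [pt_out _ hT] at h2
  omega

theorem decompM {a m b : ℕ} (ha : 1 < a) (hb : 1 < b) (hm : b ∣ m) (hm0 : m ≠ 0) (hab : a.Coprime b) (B : ℕ) :
    PD 1 1 (a ^ m * b) B ↔ PD 1 1 b B ∨ B = b ∨ ∃ x, PD 1 1 (a ^ m) x ∧ B = b * x := by
  have hb0 : b ≠ 0 := by omega
  have ha0 : a ≠ 0 := by omega
  have hA0 : a ^ m ≠ 0 := pow_ne_zero _ ha0
  have hA1 : 1 < a ^ m := Nat.one_lt_pow hm0 ha
  have hbm : b ≤ m := Nat.le_of_dvd (Nat.pos_of_ne_zero hm0) hm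
  have hcop : (a ^ m).Coprime b := Nat.Coprime.pow_left m hab
  constructor
  · rintro ⟨h1, h2, h3, h4, h5⟩
    have hB0 : B ≠ 0 := by omega
    have hBeq : B = Nat.gcd B (a ^ m) * Nat.gcd B b := by
      rw [← Nat.Coprime.gcd_mul B hcop]
      exact (Nat.gcd_eq_left h3).symm
    obtain ⟨d, hd⟩ : ∃ d, d = Nat.gcd B b := ⟨_, rfl⟩
    obtain ⟨x, hx⟩ : ∃ x, x = Nat.gcd B (a ^ m) := ⟨_, rfl⟩
    rw [← hd, ← hx] at hBeq
    have hdb : d ∣ b := hd ▸ Nat.gcd_dvd_right _ _
    have hxa : x ∣ a ^ m := hx ▸ Nat.gcd_dvd_right _ _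
    have hd0 : 0 < d := Nat.pos_of_dvd_of_pos hdb (by omega)
    have hx0 : 0 < x := Nat.pos_of_dvd_of_pos hxa (by omega)
    obtain ⟨y, hy⟩ := hxa
    obtain ⟨z, hz⟩ := hdb
    have hy0 : y ≠ 0 := fun h0 => hA0 (by rw [hy, h0, mul_zero])
    have hz0 : z ≠ 0 := fun h0 => hb0 (by rw [hz, h0, mul_zero])
    have hquot : a ^ m * b / B = y * z := by
      have e : a ^ m * b = B * (y * z) := by
        calc a ^ m * b = (x * y) * (d * z) := by rw [← hy, ← hz]
          _ = B * (y * z) := by rw [hBeq]; ring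
      rw [e, Nat.mul_div_cancel_left _ (Nat.pos_of_ne_zero hB0)]
    rw [hquot] at h4 h5
    have hyz : y.Coprime z := by
      apply Nat.Coprime.coprime_dvd_left (Dvd.intro_left x hy.symm)
      exact Nat.Coprime.coprime_dvd_right (Dvd.intro_left d hz.symm) hcop
    have hfact : ∀ q, (y * z).factorization q = y.factorization q + z.factorization q := fun q => by
      rw [Nat.factorization_mul hy0 hz0, Finsupp.add_apply]
    have hxy : a ^ m / x = y := by rw [hy, Nat.mul_div_cancel_left _ hx0]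
    have hdz : b / d = z := by
      conv_lhs => rw [hz]
      exact Nat.mul_div_cancel_left _ hd0
    have hBy : B.Coprime y := Nat.Coprime.coprime_dvd_right (Dvd.intro _ rfl) h4
    have hBz : B.Coprime z := Nat.Coprime.coprime_dvd_right (Dvd.intro_left _ rfl) h4
    have hxB : x ∣ B := ⟨d, hBeq⟩
    have hdB : d ∣ B := ⟨x, by rw [hBeq, mul_comm]⟩
    rcases Nat.lt_or_ge 1 x with hx1 | hx1
    · -- `d = b`
      right; right
      have hzone : z = 1 := by
        by_contra hz1
        obtain ⟨q, hq, hqz⟩ := Nat.exists_prime_and_dvd hz1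
        have hqy : ¬ q ∣ y := fun h => hq.one_lt.ne' (Nat.dvd_one.mp (hyz ▸ Nat.dvd_gcd h hqz))
        have e1 := h5 q
        rw [pow_one, hfact q, Nat.factorization_eq_zero_of_not_dvd hqy, zero_add] at e1
        have e2 : 0 < z.factorization q := hq.factorization_pos_of_dvd hz0 hqz
        have e3 := Nat.le_of_dvd e2 e1
        have e4 : z.factorization q ≤ b.factorization q := by
          have : z ∣ b := Dvd.intro_left d hz.symm
          exact (Nat.factorization_le_iff_dvd hz0 hb0).mpr this q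
        have e5 := fact_lt (q := q) hb0
        have e6 : m < x := unitary_pow_gt ha0 hm0 hx1 ⟨y, hy⟩
          (by rw [hxy]; exact Nat.Coprime.coprime_dvd_left hxB hBy)
        have e7 : x ≤ B := Nat.le_of_dvd (by omega) hxB
        omega
      rw [hzone, mul_one] at hz
      refine ⟨x, ⟨hx1, ?_, ⟨y, hy⟩, ?_, ?_⟩, by rw [hBeq, ← hz, mul_comm]⟩
      · rcases Nat.lt_or_ge x (a ^ m) with h | h
        · exact h
        · exfalso
          have : a ^ m * b ≤ B := by rw [hBeq, ← hz]; exact Nat.mul_le_mul_right b h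
          omega
      · rw [hxy]
        exact Nat.Coprime.coprime_dvd_left hxB hBy
      · intro q
        rw [hxy]
        have e1 := h5 q
        rw [hzone, mul_one] at e1
        exact hxB.trans e1
    · -- `x = 1`
      have hx1' : x = 1 := by omega
      rw [hx1', one_mul] at hBeq
      rcases eq_or_ne B b with hBb | hBb
      · exact Or.inr (Or.inl hBb)
      · left
        have hBdvd : B ∣ b := hBeq ▸ ⟨z, hz⟩
        refine ⟨h1, lt_of_le_of_ne (Nat.le_of_dvd (by omega) hBdvd) hBb, hBdvd, ?_, ?_⟩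
        · rw [hBeq, hdz, ← hBeq]
          exact hBz
        · intro q
          rw [hBeq, hdz, ← hBeq, pow_one]
          have e1 := h5 q
          rw [pow_one, hfact q] at e1
          have e2 : y = a ^ m := by rw [hy, hx1', one_mul]
          rw [e2, Nat.factorization_pow] at e1
          have e3 : B ∣ (m • a.factorization) q := by
            rw [Finsupp.smul_apply, smul_eq_mul]
            exact Dvd.dvd.mul_right (hBdvd.trans hm) _
          exact (Nat.dvd_add_right e3).mp e1
  · rintro (⟨h1, h2, h3, h4, h5⟩ | rfl | ⟨x, ⟨h1, h2, h3, h4, h5⟩, rfl⟩)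
    · have hB0 : 0 < B := by omega
      have hquot : a ^ m * b / B = a ^ m * (b / B) := Nat.mul_div_assoc _ h3
      have hbB0 : b / B ≠ 0 := (Nat.div_pos (Nat.le_of_dvd (by omega) h3) hB0).ne'
      refine ⟨h1, ?_, Dvd.dvd.mul_left h3 _, ?_, ?_⟩
      · nlinarith
      · rw [hquot]
        exact Nat.Coprime.mul_right (Nat.Coprime.coprime_dvd_left h3 hcop.symm) h4
      · intro q
        rw [hquot, Nat.factorization_mul hA0 hbB0, Finsupp.add_apply, pow_one, Nat.factorization_pow,
          Finsupp.smul_apply, smul_eq_mul]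
        apply Nat.dvd_add (Dvd.dvd.mul_right (h3.trans hm) _)
        have := h5 q
        rwa [pow_one] at this
    · have hquot : a ^ m * B / B = a ^ m := Nat.mul_div_cancel _ (by omega)
      refine ⟨hb, ?_, Dvd.intro_left _ rfl, ?_, ?_⟩
      · nlinarith
      · rw [hquot]
        exact hcop.symm
      · intro q
        rw [hquot, pow_one, Nat.factorization_pow, Finsupp.smul_apply, smul_eq_mul]
        exact Dvd.dvd.mul_right hm _
    · have hx0 : 0 < x := by omega
      obtain ⟨y, hy⟩ := h3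
      have hxy : a ^ m / x = y := by rw [hy, Nat.mul_div_cancel_left _ hx0]
      rw [hxy] at h4 h5
      have hquot : a ^ m * b / (b * x) = y := by
        have : a ^ m * b = b * x * y := by rw [hy]; ring
        rw [this, Nat.mul_div_cancel_left _ (by positivity)]
      have hya : y ∣ a ^ m := Dvd.intro_left x hy.symm
      have hxa : x ∣ a ^ m := ⟨y, hy⟩
      have hbx : b.Coprime x := (Nat.Coprime.coprime_dvd_left hxa hcop).symm
      refine ⟨?_, ?_, ?_, ?_, ?_⟩
      · nlinarith
      · rw [mul_comm b x]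
        exact Nat.mul_lt_mul_of_pos_right h2 (by omega)
      · rw [mul_comm b x]
        exact Nat.mul_dvd_mul_right hxa b
      · rw [hquot]
        exact Nat.Coprime.mul_left (Nat.Coprime.coprime_dvd_left hya hcop).symm h4
      · intro q
        rw [hquot, pow_one]
        have e1 := h5 q
        rw [pow_one] at e1
        apply Nat.Coprime.mul_dvd_of_dvd_of_dvd hbx _ e1
        by_cases hqx : q ∣ x
        · by_cases hq : q.Prime
          · have : ¬ q ∣ y := fun h => hq.one_lt.ne' (Nat.dvd_one.mp (h4 ▸ Nat.dvd_gcd hqx h))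
            rw [Nat.factorization_eq_zero_of_not_dvd this]
            exact dvd_zero _
          · rw [Nat.factorization_eq_zero_of_not_prime _ hq]
            exact dvd_zero _
        · have := ufact_co hA0 hxa hqx
          rw [hxy] at this
          rw [this, Nat.factorization_pow, Finsupp.smul_apply, smul_eq_mul]
          exact Dvd.dvd.mul_right hm _

theorem card_decompM {a m b : ℕ} (ha : 1 < a) (hb : 1 < b) (hm : b ∣ m) (hm0 : m ≠ 0) (hab : a.Coprime b) :
    (DD (a ^ m * b)).card = (DD b).card + 1 + (DD (a ^ m)).card := by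
  classical
  have h1 : DD (a ^ m * b) = (insert b (DD b)) ∪ (DD (a ^ m)).image (fun x => b * x) := by
    ext B
    rw [mem_DD, decompM ha hb hm hm0 hab, Finset.mem_union, Finset.mem_insert, Finset.mem_image, mem_DD]
    constructor
    · rintro (h | h | ⟨x, h, rfl⟩)
      · exact Or.inl (Or.inr h)
      · exact Or.inl (Or.inl h)
      · exact Or.inr ⟨x, mem_DD.mpr h, rfl⟩
    · rintro ((h | h) | ⟨x, h, rfl⟩)
      · exact Or.inr (Or.inl h)
      · exact Or.inl h
      · exact Or.inr (Or.inr ⟨x, mem_DD.mp h, rfl⟩)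
  rw [h1, Finset.card_union_of_disjoint, Finset.card_insert_of_notMem, Finset.card_image_of_injective]
  · intro x y hxy
    exact Nat.eq_of_mul_eq_mul_left (by omega) hxy
  · rw [mem_DD]
    rintro ⟨-, h, -⟩
    omega
  · rw [Finset.disjoint_left]
    intro B hB hB'
    rw [Finset.mem_image] at hB'
    obtain ⟨x, hx, rfl⟩ := hB'
    have hx1 : 1 < x := (mem_DD.mp hx).1
    rw [Finset.mem_insert, mem_DD] at hB
    rcases hB with h | h
    · nlinarith
    · have := h.2.1
      nlinarith

theorem keyM {t N a b d m : ℕ} (ha : 1 < a) (hb : 1 < b) (hab : a.Coprime b) (ht : t ≠ 0) (hm : m ≠ 0)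
    (hN : ∀ x, N < x → (Nat.log 2 x) ^ t < x) (hNd : N < d) (hd : PD 1 1 b d ∨ d = b)
    (hv : ∀ q, d ∣ (a.factorization q) ^ t) :
    ee t N (a * b) = ee t N (a ^ m * b) ∧ N < ee t N (a ^ m * b) ∧ ee t N (a ^ m * b) ∣ b ∧
      (ee t N (a ^ m * b)).Coprime (b / ee t N (a ^ m * b)) := by
  have hdb : d ∣ b := by
    rcases hd with h | h
    · exact h.2.2.1
    · exact h ▸ dvd_rfl
  have hdc : d.Coprime (b / d) := by
    rcases hd with h | h
    · exact h.2.2.2.1
    · rw [h, Nat.div_self (by omega)]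
      exact Nat.coprime_one_right _
  have hdf : ∀ q, d ∣ ((b / d).factorization q) ^ t := by
    intro q
    rcases hd with h | h
    · have := h.2.2.2.2 q
      rw [pow_one] at this
      exact Dvd.dvd.trans this (dvd_pow_self _ ht)
    · rw [h, Nat.div_self (by omega), Nat.factorization_one, Finsupp.zero_apply, zero_pow ht]
      exact dvd_zero _
  have hP : ∀ m, m ≠ 0 → PD t N (a ^ m * b) d := fun m hm =>
    (transfer ha hb hab hm ht hNd hdb hdc hv).mpr hdf
  have hU : ∀ m, m ≠ 0 → N < ee t N (a ^ m * b) ∧ ee t N (a ^ m * b) ∣ b ∧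
      (ee t N (a ^ m * b)).Coprime (b / ee t N (a ^ m * b)) ∧ (∀ q, ee t N (a ^ m * b) ∣ (a.factorization q) ^ t) := by
    intro m hm
    have h1 := ee_mem (hP m hm)
    have h2 := ee_le (hP m hm)
    have h3 : ee t N (a ^ m * b) ∣ d := chain hN h1 (hP m hm) h2
    have h4 := h3.trans hdb
    refine ⟨h1.1, h4, ?_, fun q => h3.trans (hv q)⟩
    have h5 := h1.2.2.2.1
    rw [Nat.mul_div_assoc _ h4] at h5
    exact Nat.Coprime.coprime_dvd_right (Dvd.intro_left _ rfl) h5
  have hle : ∀ m m', m ≠ 0 → m' ≠ 0 → ee t N (a ^ m * b) ≤ ee t N (a ^ m' * b) := by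
    intro m m' hm hm'
    obtain ⟨u1, u2, u3, u4⟩ := hU m' hm'
    apply ee_le
    rw [transfer ha hb hab hm ht u1 u2 u3 u4, ← transfer ha hb hab hm' ht u1 u2 u3 u4]
    exact ee_mem (hP m' hm')
  obtain ⟨u1, u2, u3, -⟩ := hU m hm
  refine ⟨?_, u1, u2, u3⟩
  have h1 := hle 1 m one_ne_zero hm
  have h2 := hle m 1 hm one_ne_zero
  rw [pow_one] at h1 h2
  exact le_antisymm h1 h2

theorem hv_of_badM {t a m b B d : ℕ} (ha : 1 < a) (hb : 1 < b) (hab : a.Coprime b) (ht : t ≠ 0) (hBb : B ∣ b)
    (hdm : d ∣ m) (hd0 : 0 < d) (hdc : d.Coprime (m / d))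
    (hbad : ∀ q, d ^ (t + 1) ∣ ((a ^ m * b / B).factorization q) ^ t) (q : ℕ) : d ∣ (a.factorization q) ^ t := by
  by_cases hq : a.factorization q = 0
  · rw [hq, zero_pow ht]
    exact dvd_zero _
  have hB0 : 0 < B := Nat.pos_of_dvd_of_pos hBb (by omega)
  have hA0 : a ^ m ≠ 0 := pow_ne_zero _ (by omega)
  have hbB0 : b / B ≠ 0 := (Nat.div_pos (Nat.le_of_dvd (by omega) hBb) hB0).ne'
  have hcop : a.Coprime (b / B) := Nat.Coprime.coprime_dvd_right (Nat.div_dvd_of_dvd hBb) hab
  have e1 := hbad q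
  rw [Nat.mul_div_assoc _ hBb, Nat.factorization_mul hA0 hbB0, Finsupp.add_apply, fact_zero_of hcop hq, add_zero,
    Nat.factorization_pow, Finsupp.smul_apply, smul_eq_mul, mul_pow] at e1
  obtain ⟨b', hb'⟩ := hdm
  have hdiv : m / d = b' := by
    conv_lhs => rw [hb']
    exact Nat.mul_div_cancel_left _ hd0
  rw [hdiv] at hdc
  have e2 : d ^ t * d ∣ d ^ t * (b' ^ t * (a.factorization q) ^ t) := by
    rw [← pow_succ]
    have : m ^ t = d ^ t * b' ^ t := by rw [hb', mul_pow]
    rw [this] at e1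
    rw [← mul_assoc]
    exact e1
  have e3 := Nat.dvd_of_mul_dvd_mul_left (by positivity) e2
  exact Nat.Coprime.dvd_of_dvd_mul_left (Nat.Coprime.pow_right t hdc) e3

end Pool.Agent.Hhelper34.CopT
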