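import Mathlib
import Pool.Agent.Hhelper34.CopT.Base

/-!
# Pairs with common primes in `T`: the exponents of `(A ^ b * B) / C` are not too divisible
-/

namespace Pool.Agent.Hhelper34.CopT

open Pool.Agent.Hhelper34.Cop Pool.Agent.Results.MP_1b773e_co

theorem coreT (k t : ℕ) (ht : t ≠ 0) : ∃ r : ℕ, ∀ T : Set ℕ, ∃ c : ℕ → Fin r, ∀ a b : ℕ, 1 < a → 1 < b →
    1 < pt T a → 1 < pt T b → (pt T a).Coprime b →
    c a = c b → c a = c (a * b) → c a = c (a ^ b) → c a = c (a ^ b * b) →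
    k ≤ (FF t (pt T a ^ b)).card ∧
      ∀ B, PD 1 1 (pt T b) B ∨ B = pt T b → B ∈ FF t (pt T a ^ b * pt T b) := by
  classical
  obtain ⟨N, hN1, hN⟩ := exists_N t
  obtain ⟨r₀, hr₀⟩ := CommonData.result (1 / 4) (by norm_num)
  let X := (Fin r₀ × Fin (k + 1)) × (Fin (N + 2) × Bool)
  refine ⟨Fintype.card X, fun T => ?_⟩
  obtain ⟨c₀, h₀⟩ := hr₀ ℕ (fun n => if ee 1 1 (pt T n) ≤ N then ee 1 1 (pt T n) else ee t N (pt T n)) wt
  let f : ℕ → X := fun n => ((c₀ n, ⟨(DD (pt T n)).card % (k + 1), Nat.mod_lt _ (by omega)⟩),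
    (⟨min (ee 1 1 (pt T n)) (N + 1), by omega⟩, decide (k ≤ (FF t (pt T n)).card)))
  refine ⟨fun n => Fintype.equivFin X (f n), ?_⟩
  intro a b ha hb hA hB hab e1 e2 e3 e4
  have g1 : f a = f b := (Fintype.equivFin X).injective e1
  have g2 : f a = f (a * b) := (Fintype.equivFin X).injective e2
  have g3 : f a = f (a ^ b) := (Fintype.equivFin X).injective e3
  have g4 : f a = f (a ^ b * b) := (Fintype.equivFin X).injective e4
  have p1 : ∀ {x y : ℕ}, f x = f y → c₀ x = c₀ y := fun h => congrArg (fun z => z.1.1) h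
  have p2 : ∀ {x y : ℕ}, f x = f y → (DD (pt T x)).card % (k + 1) = (DD (pt T y)).card % (k + 1) := fun h =>
    congrArg (fun z => z.1.2.val) h
  have p3 : ∀ {x y : ℕ}, f x = f y → min (ee 1 1 (pt T x)) (N + 1) = min (ee 1 1 (pt T y)) (N + 1) := fun h =>
    congrArg (fun z => z.2.1.val) h
  have p4 : ∀ {x y : ℕ}, f x = f y →
      decide (k ≤ (FF t (pt T x)).card) = decide (k ≤ (FF t (pt T y)).card) := fun h =>
    congrArg (fun z => z.2.2) h
  -- the parts
  have ha0 : a ≠ 0 := by omega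
  have hb0 : b ≠ 0 := by omega
  have q3 : pt T (a ^ b) = pt T a ^ b := pt_pow T ha0 b
  have q4 : pt T (a ^ b * b) = pt T a ^ b * pt T b := by
    rw [pt_mul T (pow_ne_zero _ ha0) hb0, q3]
  have q2 : pt T (a * b) = pt T a * pt T b := pt_mul T ha0 hb0
  have hBb : pt T b ∣ b := pt_dvd T hb0
  have hAB : (pt T a).Coprime (pt T b) := Nat.Coprime.coprime_dvd_right hBb hab
  have hBle' : pt T b ≤ b := Nat.le_of_dvd (by omega) hBb
  obtain ⟨z, hz, hz0, hzT⟩ := pt_co T hb0
  have hBz : (pt T b).Coprime z := by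
    rw [Nat.coprime_iff_gcd_eq_one]
    by_contra hg
    obtain ⟨q, hq, hqg⟩ := Nat.exists_prime_and_dvd hg
    exact pt_prime hq (hqg.trans (Nat.gcd_dvd_left _ _)) (hzT q hq (hqg.trans (Nat.gcd_dvd_right _ _)))
  -- a unitary divisor of `pt T b` is a unitary divisor of `b`
  have hunit : ∀ x, 0 < x → x ∣ pt T b → x.Coprime (pt T b / x) → x ∣ b ∧ x.Coprime (b / x) := by
    intro x hx0 hx1 hx2
    refine ⟨hx1.trans hBb, ?_⟩
    have h1 : b / x = pt T b / x * z := by
      conv_lhs => rw [hz]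
      rw [Nat.mul_comm, Nat.mul_div_assoc _ hx1, Nat.mul_comm]
    rw [h1]
    exact Nat.Coprime.mul_right hx2 (Nat.Coprime.coprime_dvd_left hx1 hBz)
  obtain ⟨A, hAdef⟩ : ∃ A, A = pt T a := ⟨_, rfl⟩
  obtain ⟨B₀, hB₀def⟩ : ∃ B₀, B₀ = pt T b := ⟨_, rfl⟩
  rw [← hAdef] at hA hab q2 q3 q4 hAB
  rw [← hB₀def] at hB hBb hAB hBle' hz hBz hunit q2 q4
  rw [← hAdef, ← hB₀def]
  -- the number of elements
  have hcard := card_decompM hA hB hBb hb0 hAB
  have m1 : (DD (A ^ b * B₀)).card % (k + 1) = (DD (A ^ b)).card % (k + 1) := by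
    have := p2 (g4.symm.trans g3)
    rwa [q3, q4] at this
  have m2 : k + 1 ∣ (DD B₀).card + 1 := by
    have : (DD B₀).card + 1 + (DD (A ^ b)).card ≡ 0 + (DD (A ^ b)).card [MOD (k + 1)] := by
      rw [← hcard, zero_add]
      exact m1
    exact (Nat.modEq_zero_iff_dvd).mp (Nat.ModEq.add_right_cancel' _ this)
  have m3 : k + 1 ≤ (DD B₀).card + 1 := Nat.le_of_dvd (by omega) m2
  -- the elements are not bad
  have hsub : insert B₀ (DD B₀) ⊆ FF t (A ^ b * B₀) := by
    intro B hB'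
    have hB' : PD 1 1 B₀ B ∨ B = B₀ := by
      rw [Finset.mem_insert, mem_DD] at hB'
      exact hB'.symm
    have hBn : PD 1 1 (A ^ b * B₀) B := by
      rw [decompM hA hB hBb hb0 hAB]
      rcases hB' with h | h
      · exact Or.inl h
      · exact Or.inr (Or.inl h)
    have hBB : B ∣ B₀ := by
      rcases hB' with h | h
      · exact h.2.2.1
      · exact h ▸ dvd_rfl
    rw [mem_FF]
    refine ⟨hBn, fun hbad => ?_⟩
    obtain ⟨d, hd⟩ : ∃ d, d = ee 1 1 (A ^ b * B₀) := ⟨_, rfl⟩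
    rw [← hd] at hbad
    have hdn : PD 1 1 (A ^ b * B₀) d := hd ▸ ee_mem hBn
    have hdB : d ≤ B := hd ▸ ee_le hBn
    have hBle : B ≤ B₀ := Nat.le_of_dvd (by omega) hBB
    have hdb : PD 1 1 B₀ d ∨ d = B₀ := by
      rcases (decompM hA hB hBb hb0 hAB d).mp hdn with h | h | ⟨x, hx, h⟩
      · exact Or.inl h
      · exact Or.inr h
      · exfalso
        have := hx.1
        nlinarith
    have hddvd : d ∣ B₀ := by
      rcases hdb with h | h
      · exact h.2.2.1
      · exact h ▸ dvd_rfl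
    have hdc : d.Coprime (B₀ / d) := by
      rcases hdb with h | h
      · exact h.2.2.2.1
      · rw [h, Nat.div_self (by omega)]
        exact Nat.coprime_one_right _
    have hd1 : 1 < d := hdn.1
    obtain ⟨hdb1, hdb2⟩ := hunit d (by omega) hddvd hdc
    have hv := hv_of_badM hA hB hAB ht hBB hdb1 (by omega) hdb2 hbad
    have hmin : min (ee 1 1 (A * B₀)) (N + 1) = min (ee 1 1 (A ^ b * B₀)) (N + 1) := by
      have := p3 (g2.symm.trans g4)
      rwa [q2, q4] at this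
    -- the common value
    have hx : ∃ x, x = (if ee 1 1 (A * B₀) ≤ N then ee 1 1 (A * B₀) else ee t N (A * B₀)) ∧
        x = (if ee 1 1 (A ^ b * B₀) ≤ N then ee 1 1 (A ^ b * B₀) else ee t N (A ^ b * B₀)) ∧
        1 < x ∧ x ∣ B₀ ∧ x.Coprime (B₀ / x) := by
      rcases Nat.lt_or_ge N d with hNd | hNd
      · obtain ⟨k1, k2, k3, k4⟩ := keyM hA hB hAB ht hb0 hN hNd hdb hv
        have h1 : ¬ ee 1 1 (A ^ b * B₀) ≤ N := by rw [← hd]; omega
        have h2 : ¬ ee 1 1 (A * B₀) ≤ N := by omega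
        refine ⟨ee t N (A ^ b * B₀), ?_, ?_, by omega, k3, k4⟩
        · rw [if_neg h2, k1]
        · rw [if_neg h1]
      · have h1 : ee 1 1 (A ^ b * B₀) ≤ N := by rw [← hd]; exact hNd
        have h2 : ee 1 1 (A * B₀) = ee 1 1 (A ^ b * B₀) := by omega
        refine ⟨d, ?_, ?_, hd1, hddvd, hdc⟩
        · rw [h2, if_pos h1]
          exact hd
        · rw [if_pos h1]
          exact hd
    obtain ⟨x, x1, x2, x3, x4, x5⟩ := hx
    obtain ⟨x4', x5'⟩ := hunit x (by omega) x4 x5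
    obtain ⟨m, hm⟩ := h₀ a b ha hb (p1 g1) (p1 g2) (p1 g3) (p1 g4) (by
      show (if ee 1 1 (pt T (a * b)) ≤ N then ee 1 1 (pt T (a * b)) else ee t N (pt T (a * b))) =
        (if ee 1 1 (pt T (a ^ b * b)) ≤ N then ee 1 1 (pt T (a ^ b * b)) else ee t N (pt T (a ^ b * b)))
      rw [q2, q4, ← x1, ← x2])
    have hm' : |CommonData.additive (wt x) b - m| < 1 / 4 := by
      have e : x = (fun n => if ee 1 1 (pt T n) ≤ N then ee 1 1 (pt T n) else ee t N (pt T n)) (a * b) := by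
        show x = (if ee 1 1 (pt T (a * b)) ≤ N then ee 1 1 (pt T (a * b)) else ee t N (pt T (a * b)))
        rw [q2]
        exact x1
      rw [e]
      exact hm
    rw [wt_half hb0 x3 x4' x5'] at hm'
    rw [abs_lt] at hm'
    have h1 : (m:ℝ) < 1 := by linarith
    have h2 : (0:ℝ) < m := by linarith
    have h3 : m < 1 := by exact_mod_cast h1
    have h4 : 0 < m := by exact_mod_cast h2
    omega
  have hins : k + 1 ≤ (insert B₀ (DD B₀)).card := by
    rw [Finset.card_insert_of_notMem]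
    · omega
    · rw [mem_DD]
      rintro ⟨-, h, -⟩
      omega
  have hge : k ≤ (FF t (A ^ b * B₀)).card := by
    have h1 := Finset.card_le_card hsub
    omega
  have hdec := p4 (g3.symm.trans g4)
  rw [q3, q4, decide_eq_true hge] at hdec
  refine ⟨of_decide_eq_true hdec, fun B hB' => hsub ?_⟩
  rw [Finset.mem_insert, mem_DD]
  exact hB'.symm

end Pool.Agent.Hhelper34.CopT
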