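import Mathlib
import Pool.Agent.Hhelper34.CopT.Core

/-!
# Pairs with common primes in `T`: the exponents of `A / x` are divisible by `(B * x ^ b) ^ 2`
-/

namespace Pool.Agent.Hhelper34.CopT

open Pool.Agent.Hhelper34.Cop

theorem threeT (k : ℕ) : ∃ r : ℕ, ∀ T : Set ℕ, ∃ c : ℕ → Fin r, ∀ a b : ℕ, 1 < a → 1 < b →
    (∀ q, q.Prime → q ∣ a → q ∣ b → q ∈ T) → (∃ q, q.Prime ∧ q ∣ b ∧ q ∉ T) →
    c a = c b → c a = c (a * b) → c a = c (a ^ b) → c a = c (a ^ b * b) →
    ∃ S : Finset ℕ, k ≤ S.card ∧ ∀ x ∈ S, 1 < x ∧ x < pt T a ∧ x ∣ pt T a ∧ x.Coprime (pt T a / x) ∧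
      ∃ s, pt T a / x = s ^ (pt T b * x ^ b) ^ k := by
  classical
  obtain ⟨r₁, hr₁⟩ := coreT k 1 one_ne_zero
  let X := Fin r₁ × (Fin (k + 3) × (Bool × Bool))
  refine ⟨Fintype.card X, fun T => ?_⟩
  obtain ⟨c₁, h₁⟩ := hr₁ T
  let f : ℕ → X := fun n => (c₁ n, (⟨min n (k + 2), by omega⟩, (decide (k ≤ (RR (k + 2) (pt T n)).card),
    decide (1 < pt T n))))
  refine ⟨fun n => Fintype.equivFin X (f n), ?_⟩
  intro a b ha hb hT hnew e1 e2 e3 e4
  have g1 : f a = f b := (Fintype.equivFin X).injective e1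
  have g2 : f a = f (a * b) := (Fintype.equivFin X).injective e2
  have g3 : f a = f (a ^ b) := (Fintype.equivFin X).injective e3
  have g4 : f a = f (a ^ b * b) := (Fintype.equivFin X).injective e4
  have p1 : ∀ {x y : ℕ}, f x = f y → c₁ x = c₁ y := fun h => congrArg Prod.fst h
  have p3 : ∀ {x y : ℕ}, f x = f y → min x (k + 2) = min y (k + 2) := fun h => congrArg (fun z => z.2.1.val) h
  have p4 : ∀ {x y : ℕ}, f x = f y →
      decide (k ≤ (RR (k + 2) (pt T x)).card) = decide (k ≤ (RR (k + 2) (pt T y)).card) := fun h =>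
    congrArg (fun z => z.2.2.1) h
  have p5 : ∀ {x y : ℕ}, f x = f y → decide (1 < pt T x) = decide (1 < pt T y) := fun h =>
    congrArg (fun z => z.2.2.2) h
  have ha0 : a ≠ 0 := by omega
  have hb0 : b ≠ 0 := by omega
  -- the parts
  have hB : 1 < pt T b := by
    obtain ⟨q, hq, hqb, hqT⟩ := hnew
    by_contra hcon
    have h1 : pt T b = 1 := by
      have := pt_ne T b
      omega
    have h2 := pt_out (T := T) b hqT
    rw [h1, Nat.factorization_one, Finsupp.zero_apply] at h2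
    have h3 := hq.factorization_pos_of_dvd hb0 hqb
    omega
  have hA : 1 < pt T a := by
    have := p5 g1
    rw [decide_eq_true hB] at this
    exact of_decide_eq_true this
  have hab : (pt T a).Coprime b := by
    rw [Nat.coprime_iff_gcd_eq_one]
    by_contra hg
    obtain ⟨q, hq, hqg⟩ := Nat.exists_prime_and_dvd hg
    have h1 := hqg.trans (Nat.gcd_dvd_left _ _)
    exact pt_prime hq h1 (hT q hq (h1.trans (pt_dvd T ha0)) (hqg.trans (Nat.gcd_dvd_right _ _)))
  have hBb : pt T b ∣ b := pt_dvd T hb0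
  have q3 : pt T (a ^ b) = pt T a ^ b := pt_pow T ha0 b
  have q4 : pt T (a ^ b * b) = pt T a ^ b * pt T b := by
    rw [pt_mul T (pow_ne_zero _ ha0) hb0, q3]
  obtain ⟨hF, hBad⟩ := h₁ a b ha hb hA hB hab (p1 g1) (p1 g2) (p1 g3) (p1 g4)
  have hbig : k + 2 ≤ b := by
    by_contra hcon
    have h1 := p3 g1
    have h2 : a = b := by omega
    obtain ⟨q, hq, hqb, hqT⟩ := hnew
    exact hqT (hT q hq (h2 ▸ hqb) hqb)
  obtain ⟨z, hz, hz0, hzT⟩ := pt_co T hb0
  have hAz : (pt T a).Coprime z := Nat.Coprime.coprime_dvd_right ⟨pt T b, by rw [mul_comm]; exact hz⟩ hab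
  have hBz : (pt T b).Coprime z := by
    rw [Nat.coprime_iff_gcd_eq_one]
    by_contra hg
    obtain ⟨q, hq, hqg⟩ := Nat.exists_prime_and_dvd hg
    exact pt_prime hq (hqg.trans (Nat.gcd_dvd_left _ _)) (hzT q hq (hqg.trans (Nat.gcd_dvd_right _ _)))
  obtain ⟨A, hAdef⟩ : ∃ A, A = pt T a := ⟨_, rfl⟩
  obtain ⟨B₀, hB₀def⟩ : ∃ B₀, B₀ = pt T b := ⟨_, rfl⟩
  rw [← hAdef] at hA hab q3 q4 hF hBad hAz
  rw [← hB₀def] at hB hBb hBz hz q4 hBad
  have hAB : A.Coprime B₀ := Nat.Coprime.coprime_dvd_right hBb hab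
  obtain ⟨S, hS1, hS2, -⟩ := FF_pow hA hb hab one_ne_zero hF
  -- the property holds for `a`
  have hRa : k ≤ (RR (k + 2) (pt T a)).card := by
    rw [← hAdef]
    refine hS1.trans (Finset.card_le_card ?_)
    intro x hx
    obtain ⟨u1, u2, u3, u4, ⟨s, hs⟩, -⟩ := hS2 x hx
    have hexp : ∀ q, x ^ b ∣ (A / x).factorization q := by
      intro q
      rw [hs, Nat.factorization_pow, Finsupp.smul_apply, smul_eq_mul]
      exact Dvd.intro _ rfl
    rw [mem_RR]
    refine ⟨⟨u1, u2, u3, u4, fun q => ?_⟩, fun q => (pow_dvd_pow x hbig).trans (hexp q)⟩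
    rw [pow_one]
    exact (dvd_pow_self x hb0).trans (hexp q)
  have hRn : k ≤ (RR (k + 2) (A ^ b * B₀)).card := by
    have := p4 g4
    rw [decide_eq_true hRa, q4] at this
    exact of_decide_eq_true this.symm
  rw [← hAdef, ← hB₀def]
  have hA0 : A ≠ 0 := by omega
  refine ⟨(Finset.range A).filter (fun c => B₀ * c ^ b ∈ RR (k + 2) (A ^ b * B₀)), ?_, ?_⟩
  · refine hRn.trans ?_
    have hsub : RR (k + 2) (A ^ b * B₀) ⊆
        ((Finset.range A).filter (fun c => B₀ * c ^ b ∈ RR (k + 2) (A ^ b * B₀))).image (fun c => B₀ * c ^ b) := by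
      intro C hC
      obtain ⟨h1, h2⟩ := mem_RR.mp hC
      have hnot : ¬ (PD 1 1 B₀ C ∨ C = B₀) := by
        intro hcase
        obtain ⟨-, h3⟩ := mem_FF.mp (hBad C hcase)
        apply h3
        intro q
        have hd := ee_mem h1
        have hdC : ee 1 1 (A ^ b * B₀) ∣ C := chain_one hd h1 (ee_le h1)
        rw [pow_one]
        refine ((pow_dvd_pow_of_dvd hdC _).trans (pow_dvd_pow C ?_)).trans (h2 q)
        omega
      rcases (decompM hA hB hBb hb0 hAB C).mp h1 with h | h | ⟨x, hx, hxC⟩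
      · exact absurd (Or.inl h) hnot
      · exact absurd (Or.inr h) hnot
      · obtain ⟨c, hc, hca, -⟩ := unitary_pow hA0 hb0 hx.2.2.1 hx.2.2.2.1
        rw [Finset.mem_image]
        refine ⟨c, ?_, by rw [hxC, hc]⟩
        rw [Finset.mem_filter, Finset.mem_range]
        refine ⟨?_, by rw [← hc, ← hxC]; exact hC⟩
        have h5 : x < A ^ b := hx.2.1
        rw [hc] at h5
        exact lt_of_pow_lt_pow_left₀ b (Nat.zero_le _) h5
    exact (Finset.card_le_card hsub).trans Finset.card_image_le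
  · intro c hc
    rw [Finset.mem_filter, Finset.mem_range] at hc
    obtain ⟨hca, hcR⟩ := hc
    obtain ⟨h1, h2⟩ := mem_RR.mp hcR
    have hc1 : 1 < c := by
      by_contra hcon
      have hc01 : c = 0 ∨ c = 1 := by omega
      rcases hc01 with h | h
      · have := h1.1
        rw [h, zero_pow hb0, mul_zero] at this
        omega
      · rw [h, one_pow, mul_one] at h1 h2
        obtain ⟨-, h3⟩ := mem_FF.mp (hBad B₀ (Or.inr rfl))
        apply h3
        intro q
        have hd := ee_mem h1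
        have hdC : ee 1 1 (A ^ b * B₀) ∣ B₀ := chain_one hd h1 (ee_le h1)
        rw [pow_one]
        refine ((pow_dvd_pow_of_dvd hdC _).trans (pow_dvd_pow B₀ ?_)).trans (h2 q)
        omega
    -- `c ^ b` is a unitary divisor of `A ^ b`
    obtain ⟨-, -, h3, h4, -⟩ := h1
    have hcb : c ^ b ∣ A ^ b := by
      rw [mul_comm (A ^ b) B₀] at h3
      exact Nat.dvd_of_mul_dvd_mul_left (by omega) h3
    obtain ⟨y, hy⟩ := hcb
    have hc0 : 0 < c ^ b := by positivity
    have hquot : A ^ b * B₀ / (B₀ * c ^ b) = y := by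
      have : A ^ b * B₀ = B₀ * c ^ b * y := by rw [hy]; ring
      rw [this, Nat.mul_div_cancel_left _ (by positivity)]
    have hquot' : A ^ b / c ^ b = y := by rw [hy, Nat.mul_div_cancel_left _ hc0]
    rw [hquot] at h4 h2
    have hcy : (c ^ b).Coprime y := Nat.Coprime.coprime_dvd_left (Dvd.intro_left B₀ rfl) h4
    obtain ⟨c', v1, v2, v3, v4⟩ := unitary_pow hA0 hb0 ⟨y, hy⟩ (by rw [hquot']; exact hcy)
    have hcc : c = c' := Nat.pow_left_injective hb0 v1
    subst hcc
    refine ⟨hc1, hca, v2, v3, ?_⟩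
    apply is_pow (Nat.div_pos hca.le (by omega)).ne'
    intro q
    have e5 := h2 q
    rw [← hquot', v4, Nat.factorization_pow, Finsupp.smul_apply, smul_eq_mul] at e5
    have hcz : c.Coprime z := Nat.Coprime.coprime_dvd_left v2 hAz
    have e6 : B₀ * (B₀ * c ^ b) ^ k ∣ B₀ * (z * (A / c).factorization q) := by
      have e7 : b * (A / c).factorization q = B₀ * (z * (A / c).factorization q) := by
        conv_lhs => rw [hz]
        ring
      rw [← e7]
      refine Dvd.dvd.trans ?_ e5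
      have : (B₀ * c ^ b) ^ (k + 2) = B₀ * (B₀ * c ^ b) ^ k * (c ^ b * (B₀ * c ^ b)) := by ring
      rw [this]
      exact Dvd.intro _ rfl
    have e8 := Nat.dvd_of_mul_dvd_mul_left (by omega) e6
    have hco : ((B₀ * c ^ b) ^ k).Coprime z :=
      Nat.Coprime.pow_left k (Nat.Coprime.mul_left hBz (Nat.Coprime.pow_left b hcz))
    exact Nat.Coprime.dvd_of_dvd_mul_left hco e8

end Pool.Agent.Hhelper34.CopT
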