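import Mathlib
import Pool.Agent.PRF3.T6
import Pool.Agent.PRF2.Cp5
import Pool.Agent.Hhelper34.CopT.Three

/-!
# No monochromatic pattern whose common prime factors belong to `T`
-/

namespace Pool.Agent.Hhelper34.CopT

open PRF3

theorem partT : ∃ r : ℕ, ∀ T : Set ℕ, ∃ c : ℕ → Fin r, ∀ a b : ℕ, 1 < a → 1 < b →
    c a = c b → c a = c (a * b) → c a = c (a ^ b) → c a = c (a ^ b * b) →
    CoT T a b → (ps T b).Nonempty → ∃ A B x s, IsPt T a A ∧ IsPt T b B ∧ 1 < x ∧ x < A ∧ x ∣ A ∧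
      x.Coprime (A / x) ∧ A / x = s ^ (B * x ^ b) ^ 2 := by
  obtain ⟨r, hr⟩ := threeT 2
  refine ⟨r, fun T => ?_⟩
  obtain ⟨c, hc⟩ := hr T
  refine ⟨c, fun a b ha hb h1 h2 h3 h4 hco hne => ?_⟩
  obtain ⟨S, hS, hS'⟩ := hc a b ha hb
    (fun q hq hqa hqb => hco q (Nat.mem_primeFactors.mpr ⟨hq, hqa, by omega⟩)
      (Nat.mem_primeFactors.mpr ⟨hq, hqb, by omega⟩)) (by
    obtain ⟨q, hq⟩ := hne
    rw [mem_ps, Nat.mem_primeFactors] at hq
    exact ⟨q, hq.1.1, hq.1.2.1, hq.2⟩) h1 h2 h3 h4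
  obtain ⟨x, hx⟩ : ∃ x, x ∈ S := Finset.card_pos.mp (by omega)
  obtain ⟨x1, x2, x3, x4, s, x5⟩ := hS' x hx
  exact ⟨pt T a, pt T b, x, s, ⟨pt_ne T a, fun q hq => pt_out a hq, fun q hq => pt_in a hq⟩,
    ⟨pt_ne T b, fun q hq => pt_out b hq, fun q hq => pt_in b hq⟩, x1, x2, x3, x4, x5⟩

/-- There is a number `r` such that for every set `T` of primes there is a colouring with `r` colours without
monochromatic `a, b, ab, a ^ b, a ^ b * b` for all `a, b > 1` whose common prime factors are in `T`, while `ab` has a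
prime factor outside `T`. -/
theorem common_none : ∃ r : ℕ, ∀ T : Set ℕ, ∃ c : ℕ → Fin r, ∀ a b : ℕ, 1 < a → 1 < b →
    (∀ q, q.Prime → q ∣ a → q ∣ b → q ∈ T) → (∃ q, q.Prime ∧ q ∣ a * b ∧ q ∉ T) →
    c a = c b → c a = c (a * b) → c a = c (a ^ b) → c a = c (a ^ b * b) → False := by
  obtain ⟨r, hr⟩ := noneT partT
  refine ⟨r, fun T => ?_⟩
  obtain ⟨c, hc⟩ := hr T
  refine ⟨c, fun a b ha hb hco hne => hc a b ha hb ?_ ?_⟩
  · intro q hqa hqb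
    rw [Nat.mem_primeFactors] at hqa hqb
    exact hco q hqa.1 hqa.2.1 hqb.2.1
  · obtain ⟨q, hq, hqd, hqT⟩ := hne
    refine ⟨q, ?_⟩
    rw [mem_ps, Nat.mem_primeFactors]
    refine ⟨⟨hq, hqd, ?_⟩, hqT⟩
    exact Nat.mul_ne_zero (by omega) (by omega)

end Pool.Agent.Hhelper34.CopT
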